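import Pool.Agent.Lib.MP_6bc78b_nt.MS.P4.Iface

/-! Project MS, Part IV, module FIN (helper5): the final theorem. -/

set_option autoImplicit false

open Complex Filter Topology ArithmeticFunction MeasureTheory

namespace Pool.Agent.Lib.MP_6bc78b_nt.MS.P4.H05

open Pool.Agent.Lib.MP_6bc78b_nt Pool.Agent.Lib.MP_6bc78b_nt.MS

/-- multiple zeros -/
noncomputable def b1 (γ : ℝ) : ℝ :=
  open Classical in if riemannZeta (1 / 2 + γ * I) = 0 ∧ 2 ≤ mz γ then (mz γ : ℝ) else 0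

/-- excess multiplicity -/
noncomputable def b2 (γ : ℝ) : ℝ :=
  open Classical in if riemannZeta (1 / 2 + γ * I) = 0 then (mz γ : ℝ) - 1 else 0

lemma eventually_pos : ∀ᶠ T : ℝ in atTop, 0 < cG T * Real.log T := by
  filter_upwards [eventually_gt_atTop 1] with T hT
  have hl := Real.log_pos hT
  have hD : 0 < DD T := by
    unfold DD
    exact div_pos (by linarith) (Real.rpow_pos_of_pos hl _)
  unfold cG
  have hpi : 0 < Real.sqrt Real.pi := Real.sqrt_pos.2 Real.pi_pos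
  positivity

/-- module FIN -/
theorem fin (h1 : CertStatement) (h2 : QslStatement) (h3 : NumStatement) (h4 : AvgStatement)
    (h5 : ZfacStatement) : FinalStatement := by
  classical
  obtain ⟨z1, z2, z3, z4, z5, z6, z7⟩ := h5
  obtain ⟨th, lam, c1, c2, be, hth0, hth, htl, hl1, hbe0, hbe1, hQ⟩ := h3
  have hlam0 : 0 < lam := by linarith
  have hlim := h2 th lam c1 c2 be hth0 hth htl hl1
  have hQS : ∀ᶠ T : ℝ in atTop, QS th lam c1 c2 be T ≤ 0.292949 * (cG T * Real.log T) := by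
    have e1 := hlim.eventually_lt_const hQ
    filter_upwards [e1, eventually_pos] with T hT hp
    rw [div_lt_iff₀ hp] at hT
    exact hT.le
  have hcert := h1 th lam c1 c2 be (1 / 10000000) hlam0 hl1 hbe0 hbe1 (by norm_num)
  -- the two weighted inequalities
  have hb1nn : ∀ γ, 0 ≤ b1 γ := by
    intro γ; unfold b1; split_ifs <;> positivity
  have hb2nn : ∀ γ, 0 ≤ b2 γ := by
    intro γ; unfold b2
    split_ifs with h
    · have : (1 : ℝ) ≤ mz γ := by exact_mod_cast z3 γ h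
      linarith
    · exact le_rfl
  have s1 : ∀ T, ∑ᶠ γ ∈ zset T, b1 γ * wt T γ =
      ∑ᶠ γ ∈ {γ | γ ∈ zset T ∧ 2 ≤ mz γ}, (mz γ : ℝ) * wt T γ := by
    intro T
    apply finsum_congr
    intro γ
    by_cases hγ : γ ∈ zset T
    · by_cases hm : 2 ≤ mz γ
      · have e : γ ∈ {γ | γ ∈ zset T ∧ 2 ≤ mz γ} := ⟨hγ, hm⟩
        have hz : riemannZeta (1 / 2 + γ * I) = 0 := hγ.2.2
        rw [finsum_eq_if, finsum_eq_if, if_pos hγ, if_pos e, b1, if_pos ⟨hz, hm⟩]
      · have e : γ ∉ {γ | γ ∈ zset T ∧ 2 ≤ mz γ} := fun h => hm h.2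
        rw [finsum_eq_if, finsum_eq_if, if_pos hγ, if_neg e, b1, if_neg (fun h => hm h.2),
          zero_mul]
    · have e : γ ∉ {γ | γ ∈ zset T ∧ 2 ≤ mz γ} := fun h => hγ h.1
      rw [finsum_eq_if, finsum_eq_if, if_neg hγ, if_neg e]
  have s2 : ∀ T, ∑ᶠ γ ∈ zset T, b2 γ * wt T γ =
      ∑ᶠ γ ∈ zset T, ((mz γ : ℝ) - 1) * wt T γ := by
    intro T
    apply finsum_congr
    intro γ
    by_cases hγ : γ ∈ zset T
    · have hz : riemannZeta (1 / 2 + γ * I) = 0 := hγ.2.2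
      rw [finsum_eq_if, finsum_eq_if, if_pos hγ, if_pos hγ, b2, if_pos hz]
    · rw [finsum_eq_if, finsum_eq_if, if_neg hγ, if_neg hγ]
  have w1 : ∀ᶠ T : ℝ in atTop, ∑ᶠ γ ∈ zset T, b1 γ * wt T γ ≤
      0.2929495 * (cG T * Real.log T) := by
    filter_upwards [hQS, hcert, eventually_pos] with T hq hc hp
    rw [s1]
    have e : (1 - 1 / 10000000) *
      ∑ᶠ γ ∈ {γ | γ ∈ zset T ∧ 2 ≤ mz γ}, (mz γ : ℝ) * wt T γ ≤ QS th lam c1 c2 be T := hc.1
    linarith
  have w2 : ∀ᶠ T : ℝ in atTop, ∑ᶠ γ ∈ zset T, b2 γ * wt T γ ≤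
      0.14648 * (cG T * Real.log T) := by
    filter_upwards [hQS, hcert, eventually_pos] with T hq hc hp
    rw [s2]
    have e := hc.2
    linarith
  have a1 := h4 b1 hb1nn 0.2929495 0.29295 (by norm_num) (by norm_num) w1
  have a2 := h4 b2 hb2nn 0.14648 0.1465 (by norm_num) (by norm_num) w2
  obtain ⟨T0, hT0⟩ := (a1.and a2).exists_forall_of_atTop
  refine ⟨T0, fun T hT => ?_⟩
  obtain ⟨n1, n2⟩ := hT0 T hT
  -- the set of zeros
  set Z : Set ℝ := {γ : ℝ | 0 < γ ∧ γ ≤ T ∧ riemannZeta (1 / 2 + γ * I) = 0} with hZ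
  have hfin : Z.Finite := z6 T
  have hZ2 : {γ : ℝ | 0 < γ ∧ γ ≤ T ∧ hardyZ γ = 0} = Z := by
    ext γ
    simp only [hZ, Set.mem_setOf_eq, z1]
  have hNZ : NZ T = Nb (fun γ => (mz γ : ℝ)) T := by
    unfold NZ Nb
    rw [hZ2]
    apply finsum_mem_congr rfl
    intro γ hγ
    rw [z2 γ hγ.2.2]
  have hsum : ∀ f : ℝ → ℝ, Nb f T = ∑ γ ∈ hfin.toFinset, f γ := by
    intro f
    unfold Nb
    exact finsum_mem_eq_finite_toFinset_sum f hfin
  have hNZd : NZd T = ∑ γ ∈ hfin.toFinset, (1 : ℝ) := by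
    unfold NZd
    rw [hZ2, Set.ncard_eq_toFinset_card Z hfin]
    simp
  have hset : {γ : ℝ | 0 < γ ∧ γ ≤ T ∧ zeroMult γ = 1} = {γ | γ ∈ Z ∧ mz γ = 1} := by
    ext γ
    simp only [Set.mem_setOf_eq]
    constructor
    · rintro ⟨g1, g2, g3⟩
      have hz : riemannZeta (1 / 2 + γ * I) = 0 := by
        by_contra h
        have : hardyZ γ ≠ 0 := fun h' => h ((z1 γ).1 h')
        rw [z4 γ this] at g3
        omega
      exact ⟨⟨g1, g2, hz⟩, by rw [← z2 γ hz]; exact g3⟩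
    · rintro ⟨⟨g1, g2, g3⟩, g4⟩
      exact ⟨g1, g2, by rw [z2 γ g3]; exact g4⟩
  have hNZs : NZs T = ∑ γ ∈ hfin.toFinset, (if mz γ = 1 then (1 : ℝ) else 0) := by
    unfold NZs
    rw [hset]
    have e : {γ | γ ∈ Z ∧ mz γ = 1} = ((hfin.toFinset.filter (fun γ => mz γ = 1) : Finset ℝ) :
        Set ℝ) := by
      ext γ; simp
    rw [e, Set.ncard_coe_finset, Finset.sum_ite]
    simp
  constructor
  · have e : NZs T = NZ T - Nb b1 T := by
      rw [hNZs, hNZ, hsum, hsum, ← Finset.sum_sub_distrib]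
      apply Finset.sum_congr rfl
      intro γ hγ
      have hz : riemannZeta (1 / 2 + γ * I) = 0 := (hfin.mem_toFinset.1 hγ).2.2
      have h1m := z3 γ hz
      unfold b1
      by_cases hm : mz γ = 1
      · rw [if_pos hm, if_neg (by rintro ⟨-, h⟩; omega), hm]; norm_num
      · rw [if_neg hm, if_pos ⟨hz, by omega⟩]; ring
    rw [e, hNZ]
    linarith
  · have e : NZd T = NZ T - Nb b2 T := by
      rw [hNZd, hNZ, hsum, hsum, ← Finset.sum_sub_distrib]
      apply Finset.sum_congr rfl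
      intro γ hγ
      have hz : riemannZeta (1 / 2 + γ * I) = 0 := (hfin.mem_toFinset.1 hγ).2.2
      unfold b2
      rw [if_pos hz]; ring
    rw [e, hNZ]
    linarith

end Pool.Agent.Lib.MP_6bc78b_nt.MS.P4.H05
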