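import Pool.Agent.Lib.MP_6bc78b_nt.MS.P4.Iface

/-! Project MS, Part IV, module KER (helper5): the averaging kernel. -/

set_option autoImplicit false

open Complex Filter Topology ArithmeticFunction MeasureTheory

namespace Pool.Agent.Lib.MP_6bc78b_nt.MS.P4.H05

open Pool.Agent.Lib.MP_6bc78b_nt.MS

lemma DD_pos {T : ℝ} (h : 1 < T) : 0 < DD T := by
  unfold DD
  exact div_pos (by linarith) (Real.rpow_pos_of_pos (Real.log_pos h) _)

/-- `(1 + x)^(2/3) ≤ 1 + x` in the form needed -/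
lemma rpow_le_aux {u v c : ℝ} (hu : 0 < u) (hv : 0 < v) (hc : 1 ≤ c) (h : v ≤ c * u) :
    v ^ (2 / 3 : ℝ) ≤ c * u ^ (2 / 3 : ℝ) := by
  have h1 : v ^ (2 / 3 : ℝ) ≤ (c * u) ^ (2 / 3 : ℝ) :=
    Real.rpow_le_rpow hv.le h (by norm_num)
  rw [Real.mul_rpow (by linarith) hu.le] at h1
  have h2 : c ^ (2 / 3 : ℝ) ≤ c := by
    calc c ^ (2 / 3 : ℝ) ≤ c ^ (1 : ℝ) := Real.rpow_le_rpow_of_exponent_le hc (by norm_num)
      _ = c := Real.rpow_one c
  have h3 : 0 ≤ u ^ (2 / 3 : ℝ) := Real.rpow_nonneg hu.le _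
  nlinarith

/-- comparison of `D` at comparable points -/
lemma DD_compare {γ c T : ℝ} (hγ : 2 ≤ Real.log γ) (hγ0 : 0 < γ) (hc : 1 ≤ c) (hc2 : c ≤ 2)
    (h1 : γ / c ≤ T) (h2 : T ≤ c * γ) : DD γ / c ≤ DD T ∧ DD T ≤ c * DD γ := by
  have hc0 : 0 < c := by linarith
  have hT0 : 0 < T := lt_of_lt_of_le (div_pos hγ0 hc0) h1
  have hlc : Real.log c ≤ c - 1 := Real.log_le_sub_one_of_pos hc0
  have hlc0 : 0 ≤ Real.log c := Real.log_nonneg hc
  have hlT1 : Real.log γ - Real.log c ≤ Real.log T := by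
    rw [← Real.log_div hγ0.ne' hc0.ne']
    exact Real.log_le_log (div_pos hγ0 hc0) h1
  have hlT2 : Real.log T ≤ Real.log γ + Real.log c := by
    rw [add_comm, ← Real.log_mul hc0.ne' hγ0.ne']
    exact Real.log_le_log hT0 h2
  have hlT0 : 0 < Real.log T := by linarith
  have hlγ0 : 0 < Real.log γ := by linarith
  have hp1 : 0 < Real.log γ ^ (2 / 3 : ℝ) := Real.rpow_pos_of_pos hlγ0 _
  have hp2 : 0 < Real.log T ^ (2 / 3 : ℝ) := Real.rpow_pos_of_pos hlT0 _
  unfold DD
  rcases le_total γ T with h | h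
  · have hl : Real.log γ ≤ Real.log T := Real.log_le_log hγ0 h
    have hp3 : Real.log γ ^ (2 / 3 : ℝ) ≤ Real.log T ^ (2 / 3 : ℝ) :=
      Real.rpow_le_rpow hlγ0.le hl (by norm_num)
    constructor
    · -- γ / (c lγ) ≤ T / lT
      have h4 : Real.log T ^ (2 / 3 : ℝ) ≤ c * Real.log γ ^ (2 / 3 : ℝ) := by
        apply rpow_le_aux hlγ0 hlT0 hc
        nlinarith
      rw [div_div, div_le_div_iff₀ (by positivity) hp2]
      have : γ * Real.log T ^ (2 / 3 : ℝ) ≤ T * (Real.log γ ^ (2 / 3 : ℝ) * c) := by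
        have h5 : γ * Real.log T ^ (2 / 3 : ℝ) ≤ γ * (c * Real.log γ ^ (2 / 3 : ℝ)) :=
          mul_le_mul_of_nonneg_left h4 hγ0.le
        have h6 : γ * (c * Real.log γ ^ (2 / 3 : ℝ)) ≤ T * (c * Real.log γ ^ (2 / 3 : ℝ)) :=
          mul_le_mul_of_nonneg_right h (by positivity)
        linarith
      exact this
    · rw [← mul_div_assoc, div_le_div_iff₀ hp2 hp1]
      calc T * Real.log γ ^ (2 / 3 : ℝ) ≤ (c * γ) * Real.log γ ^ (2 / 3 : ℝ) :=
            mul_le_mul_of_nonneg_right h2 hp1.le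
        _ ≤ (c * γ) * Real.log T ^ (2 / 3 : ℝ) :=
            mul_le_mul_of_nonneg_left hp3 (by positivity)
  · have hl : Real.log T ≤ Real.log γ := Real.log_le_log hT0 h
    have hp3 : Real.log T ^ (2 / 3 : ℝ) ≤ Real.log γ ^ (2 / 3 : ℝ) :=
      Real.rpow_le_rpow hlT0.le hl (by norm_num)
    constructor
    · rw [div_div, div_le_div_iff₀ (by positivity) hp2]
      rw [div_le_iff₀ hc0] at h1
      calc γ * Real.log T ^ (2 / 3 : ℝ) ≤ (T * c) * Real.log T ^ (2 / 3 : ℝ) :=
            mul_le_mul_of_nonneg_right h1 hp2.le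
        _ ≤ (T * c) * Real.log γ ^ (2 / 3 : ℝ) :=
            mul_le_mul_of_nonneg_left hp3 (by positivity)
        _ = T * (Real.log γ ^ (2 / 3 : ℝ) * c) := by ring
    · rw [← mul_div_assoc, div_le_div_iff₀ hp2 hp1]
      have h4 : Real.log γ ^ (2 / 3 : ℝ) ≤ c * Real.log T ^ (2 / 3 : ℝ) := by
        apply rpow_le_aux hlT0 hlγ0 hc
        -- log γ ≤ c (log γ - log c) suffices
        have h5 : c * (Real.log γ - Real.log c) ≤ c * Real.log T :=
          mul_le_mul_of_nonneg_left hlT1 hc0.le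
        nlinarith
      calc T * Real.log γ ^ (2 / 3 : ℝ) ≤ γ * Real.log γ ^ (2 / 3 : ℝ) :=
            mul_le_mul_of_nonneg_right h hp1.le
        _ ≤ γ * (c * Real.log T ^ (2 / 3 : ℝ)) := mul_le_mul_of_nonneg_left h4 hγ0.le
        _ = c * γ * Real.log T ^ (2 / 3 : ℝ) := by ring

lemma kw_nonneg {γ T : ℝ} (h : 1 < T) : 0 ≤ kw γ T := by
  unfold kw wt
  have := DD_pos h
  positivity

lemma kw_contOn (γ : ℝ) : ContinuousOn (kw γ) (Set.Ioi 1) := by
  unfold kw wt DD
  have h1 : ContinuousOn (fun T : ℝ => T / Real.log T ^ (2 / 3 : ℝ)) (Set.Ioi 1) := by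
    apply ContinuousOn.div continuousOn_id
    · apply ContinuousOn.rpow_const
      · apply Real.continuousOn_log.mono
        intro x hx
        simp only [Set.mem_Ioi] at hx
        simp only [Set.mem_compl_iff, Set.mem_singleton_iff]
        linarith
      · intro x hx
        left
        exact (Real.log_pos hx).ne'
    · intro x hx
      exact (Real.rpow_pos_of_pos (Real.log_pos hx) _).ne'
  have h2 : ∀ x ∈ Set.Ioi (1 : ℝ), x / Real.log x ^ (2 / 3 : ℝ) ≠ 0 := by
    intro x hx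
    exact (DD_pos hx).ne'
  apply ContinuousOn.div
  · apply Real.continuous_exp.comp_continuousOn
    apply ContinuousOn.div
    · fun_prop
    · exact h1.pow 2
    · intro x hx
      exact pow_ne_zero _ (h2 x hx)
  · exact continuousOn_const.mul h1
  · intro x hx
    exact mul_ne_zero (by positivity) (h2 x hx)

lemma kw_int (γ : ℝ) {a b : ℝ} (ha : 1 < a) (hb : 1 < b) :
    IntervalIntegrable (kw γ) volume a b := by
  apply ContinuousOn.intervalIntegrable
  apply (kw_contOn γ).mono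
  intro x hx
  rw [Set.mem_uIcc] at hx
  simp only [Set.mem_Ioi]
  rcases hx with hx | hx <;> linarith [hx.1]

lemma gauss_cont : Continuous (fun v : ℝ => Real.exp (-v ^ 2)) := by fun_prop

lemma gauss_int : Integrable (fun v : ℝ => Real.exp (-v ^ 2)) := by
  have h := integrable_exp_neg_mul_sq (b := 1) one_pos
  simpa using h

lemma gauss_total : ∫ v : ℝ, Real.exp (-v ^ 2) = Real.sqrt Real.pi := by
  have h := integral_gaussian 1
  simpa using h

lemma gauss_le (a b : ℝ) : ∫ v in a..b, Real.exp (-v ^ 2) ≤ Real.sqrt Real.pi := by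
  rcases le_total a b with h | h
  · rw [intervalIntegral.integral_of_le h, ← gauss_total]
    exact setIntegral_le_integral gauss_int (Filter.Eventually.of_forall fun v => (Real.exp_pos _).le)
  · rw [intervalIntegral.integral_symm]
    have h1 : 0 ≤ ∫ v in b..a, Real.exp (-v ^ 2) :=
      intervalIntegral.integral_nonneg h fun v _ => (Real.exp_pos _).le
    have h2 := Real.sqrt_nonneg Real.pi
    linarith

/-- scaled Gaussian on an interval -/
lemma gauss_scale {m g a b : ℝ} (hm : 0 < m) :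
    ∫ T in a..b, Real.exp (-(m * T - m * g) ^ 2) =
      m⁻¹ * ∫ v in (m * a - m * g)..(m * b - m * g), Real.exp (-v ^ 2) := by
  have h := intervalIntegral.integral_comp_mul_sub (a := a) (b := b)
    (fun v : ℝ => Real.exp (-v ^ 2)) hm.ne' (m * g)
  rw [h, smul_eq_mul]

section
variable {γ c : ℝ}

lemma one_lt_of_log {γ : ℝ} (hγ : 2 ≤ Real.log γ) (hγ0 : 0 < γ) : 7 < γ := by
  have h1 : Real.exp 2 ≤ γ := by
    rw [← Real.exp_log hγ0]; exact Real.exp_le_exp.2 hγ
  have h2 : (7 : ℝ) < Real.exp 2 := by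
    have h3 : Real.exp 2 = Real.exp 1 * Real.exp 1 := by rw [← Real.exp_add]; norm_num
    have h4 := Real.exp_one_gt_d9
    rw [h3]
    nlinarith
  linarith

lemma mid_upper (hγ : 2 ≤ Real.log γ) (hγ0 : 0 < γ) (hc : 1 < c) (hc2 : c ≤ 2) :
    ∫ T in (γ / c)..(c * γ), kw γ T ≤ c ^ 2 := by
  have h7 := one_lt_of_log hγ hγ0
  have hc0 : 0 < c := by linarith
  have hD := DD_pos (T := γ) (by linarith)
  have hle : γ / c ≤ c * γ := by
    have e1 : γ / c ≤ γ := by rw [div_le_iff₀ hc0]; nlinarith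
    nlinarith
  have ha : 1 < γ / c := by rw [lt_div_iff₀ hc0]; linarith
  have hb : 1 < c * γ := by nlinarith
  set m : ℝ := (c * DD γ)⁻¹ with hm
  have hm0 : 0 < m := by positivity
  have hpi : 0 < Real.sqrt Real.pi := Real.sqrt_pos.2 Real.pi_pos
  have h1 : ∫ T in (γ / c)..(c * γ), kw γ T ≤
      ∫ T in (γ / c)..(c * γ), (c / (Real.sqrt Real.pi * DD γ)) *
        Real.exp (-(m * T - m * γ) ^ 2) := by
    apply intervalIntegral.integral_mono_on hle (kw_int γ ha hb)
    · apply Continuous.intervalIntegrable; fun_prop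
    · intro T hT
      obtain ⟨hT1, hT2⟩ := DD_compare hγ hγ0 hc.le hc2 hT.1 hT.2
      have hDT : 0 < DD T := DD_pos (lt_of_lt_of_le ha hT.1)
      unfold kw wt
      have e1 : Real.exp (-(γ - T) ^ 2 / DD T ^ 2) ≤ Real.exp (-(m * T - m * γ) ^ 2) := by
        apply Real.exp_le_exp.2
        rw [neg_div, neg_le_neg_iff]
        have : (m * T - m * γ) ^ 2 = (γ - T) ^ 2 / (c * DD γ) ^ 2 := by
          rw [hm]; field_simp; ring
        rw [this]
        apply div_le_div_of_nonneg_left (sq_nonneg _) (by positivity)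
        exact pow_le_pow_left₀ hDT.le hT2 2
      have e2 : 1 / (Real.sqrt Real.pi * DD T) ≤ c / (Real.sqrt Real.pi * DD γ) := by
        rw [div_le_div_iff₀ (by positivity) (by positivity)]
        rw [div_le_iff₀ hc0] at hT1
        nlinarith
      calc Real.exp (-(γ - T) ^ 2 / DD T ^ 2) / (Real.sqrt Real.pi * DD T)
          = (1 / (Real.sqrt Real.pi * DD T)) * Real.exp (-(γ - T) ^ 2 / DD T ^ 2) := by ring
        _ ≤ (c / (Real.sqrt Real.pi * DD γ)) * Real.exp (-(m * T - m * γ) ^ 2) :=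
          mul_le_mul e2 e1 (Real.exp_pos _).le (by positivity)
  refine h1.trans ?_
  rw [intervalIntegral.integral_const_mul, gauss_scale hm0]
  have h2 := gauss_le (m * (γ / c) - m * γ) (m * (c * γ) - m * γ)
  have h3 : c / (Real.sqrt Real.pi * DD γ) * (m⁻¹ * Real.sqrt Real.pi) = c ^ 2 := by
    rw [hm]; field_simp
  rw [← h3]
  have : 0 < m⁻¹ := by positivity
  gcongr

lemma mid_lower (hγ : 2 ≤ Real.log γ) (hγ0 : 0 < γ) (hc : 1 < c) (hc2 : c ≤ 2) :
    (c ^ 2 * Real.sqrt Real.pi)⁻¹ *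
      (∫ v in (-((c - 1) * (γ / DD γ)))..((c - 1) * (γ / DD γ)), Real.exp (-v ^ 2)) ≤
    ∫ T in (γ / c)..(c * γ), kw γ T := by
  have h7 := one_lt_of_log hγ hγ0
  have hc0 : 0 < c := by linarith
  have hD := DD_pos (T := γ) (by linarith)
  have hle : γ / c ≤ c * γ := by
    have e1 : γ / c ≤ γ := by rw [div_le_iff₀ hc0]; nlinarith
    nlinarith
  have ha : 1 < γ / c := by rw [lt_div_iff₀ hc0]; linarith
  have hb : 1 < c * γ := by nlinarith
  set m : ℝ := c / DD γ with hm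
  have hm0 : 0 < m := by positivity
  have hpi : 0 < Real.sqrt Real.pi := Real.sqrt_pos.2 Real.pi_pos
  have h1 : ∫ T in (γ / c)..(c * γ), (1 / (Real.sqrt Real.pi * (c * DD γ))) *
        Real.exp (-(m * T - m * γ) ^ 2) ≤ ∫ T in (γ / c)..(c * γ), kw γ T := by
    apply intervalIntegral.integral_mono_on hle ?_ (kw_int γ ha hb)
    · intro T hT
      obtain ⟨hT1, hT2⟩ := DD_compare hγ hγ0 hc.le hc2 hT.1 hT.2
      have hDT : 0 < DD T := DD_pos (lt_of_lt_of_le ha hT.1)
      unfold kw wt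
      have e1 : Real.exp (-(m * T - m * γ) ^ 2) ≤ Real.exp (-(γ - T) ^ 2 / DD T ^ 2) := by
        apply Real.exp_le_exp.2
        rw [neg_div, neg_le_neg_iff]
        have : (m * T - m * γ) ^ 2 = (γ - T) ^ 2 / (DD γ / c) ^ 2 := by
          rw [hm]; field_simp; ring
        rw [this]
        apply div_le_div_of_nonneg_left (sq_nonneg _) (by positivity)
        exact pow_le_pow_left₀ (by positivity) hT1 2
      have e2 : 1 / (Real.sqrt Real.pi * (c * DD γ)) ≤ 1 / (Real.sqrt Real.pi * DD T) := by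
        apply one_div_le_one_div_of_le (by positivity)
        exact mul_le_mul_of_nonneg_left hT2 hpi.le
      calc (1 / (Real.sqrt Real.pi * (c * DD γ))) * Real.exp (-(m * T - m * γ) ^ 2)
          ≤ (1 / (Real.sqrt Real.pi * DD T)) * Real.exp (-(γ - T) ^ 2 / DD T ^ 2) :=
            mul_le_mul e2 e1 (Real.exp_pos _).le (by positivity)
        _ = Real.exp (-(γ - T) ^ 2 / DD T ^ 2) / (Real.sqrt Real.pi * DD T) := by ring
    · apply Continuous.intervalIntegrable; fun_prop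
  refine le_trans ?_ h1
  rw [intervalIntegral.integral_const_mul, gauss_scale hm0]
  have e1 : m * (γ / c) - m * γ = -((c - 1) * (γ / DD γ)) := by
    rw [hm]; field_simp; ring
  have e2 : (c - 1) * (γ / DD γ) ≤ m * (c * γ) - m * γ := by
    have : m * (c * γ) - m * γ = c * ((c - 1) * (γ / DD γ)) := by rw [hm]; ring
    rw [this]
    have h0 : 0 ≤ (c - 1) * (γ / DD γ) := by
      apply mul_nonneg (by linarith) (by positivity)
    nlinarith
  have h0 : 0 ≤ (c - 1) * (γ / DD γ) := mul_nonneg (by linarith) (by positivity)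
  rw [e1]
  have e3 : (∫ v in (-((c - 1) * (γ / DD γ)))..((c - 1) * (γ / DD γ)), Real.exp (-v ^ 2)) ≤
      ∫ v in (-((c - 1) * (γ / DD γ)))..(m * (c * γ) - m * γ), Real.exp (-v ^ 2) := by
    apply intervalIntegral.integral_mono_interval le_rfl (by linarith) e2
    · exact Filter.Eventually.of_forall fun v => (Real.exp_pos _).le
    · exact gauss_cont.intervalIntegrable _ _
  have e4 : 1 / (Real.sqrt Real.pi * (c * DD γ)) * m⁻¹ = (c ^ 2 * Real.sqrt Real.pi)⁻¹ := by
    rw [hm]; field_simp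
  rw [← mul_assoc, e4]
  exact mul_le_mul_of_nonneg_left e3 (by positivity)

lemma outer_pt (hγ : 2 ≤ Real.log γ) (hγ0 : 0 < γ) (hc : 1 < c) (hc2 : c ≤ 2) {T : ℝ}
    (hT1 : γ / 2 ≤ T) (hT2 : T ≤ 2 * γ) (h : T ≤ γ / c ∨ c * γ ≤ T) :
    kw γ T ≤ 2 / (DD γ * (((c - 1) / (2 * c)) ^ 2 * (γ / DD γ) ^ 2)) := by
  have h7 := one_lt_of_log hγ hγ0
  have hc0 : 0 < c := by linarith
  have hD := DD_pos (T := γ) (by linarith)
  have hDT : 0 < DD T := DD_pos (by linarith)
  obtain ⟨hT3, hT4⟩ := DD_compare hγ hγ0 (by norm_num) (le_refl 2) hT1 hT2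
  have hpi : 1 ≤ Real.sqrt Real.pi := by
    rw [Real.one_le_sqrt]; linarith [Real.pi_gt_three]
  set κ : ℝ := ((c - 1) / (2 * c)) ^ 2 * (γ / DD γ) ^ 2 with hκ
  have hκ0 : 0 < κ := by
    have : 0 < (c - 1) / (2 * c) := div_pos (by linarith) (by linarith)
    positivity
  have h1 : ((c - 1) / c * γ) ^ 2 ≤ (γ - T) ^ 2 := by
    have h2 : 0 ≤ (c - 1) / c * γ := by
      apply mul_nonneg (div_nonneg (by linarith) hc0.le) hγ0.le
    rcases h with h | h
    · apply pow_le_pow_left₀ h2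
      have : (c - 1) / c * γ = γ - γ / c := by field_simp
      rw [this]; linarith
    · have : (γ - T) ^ 2 = (T - γ) ^ 2 := by ring
      rw [this]
      apply pow_le_pow_left₀ h2
      have h3 : (c - 1) / c * γ ≤ (c - 1) * γ := by
        apply mul_le_mul_of_nonneg_right _ hγ0.le
        rw [div_le_iff₀ hc0]; nlinarith
      linarith
  have h2 : κ ≤ (γ - T) ^ 2 / DD T ^ 2 := by
    rw [le_div_iff₀ (by positivity)]
    have h3 : DD T ^ 2 ≤ (2 * DD γ) ^ 2 := pow_le_pow_left₀ hDT.le hT4 2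
    have h4 : κ * (2 * DD γ) ^ 2 = ((c - 1) / c * γ) ^ 2 := by
      rw [hκ]; field_simp
    calc κ * DD T ^ 2 ≤ κ * (2 * DD γ) ^ 2 := mul_le_mul_of_nonneg_left h3 hκ0.le
      _ = ((c - 1) / c * γ) ^ 2 := h4
      _ ≤ _ := h1
  have h3 : Real.exp (-(γ - T) ^ 2 / DD T ^ 2) ≤ 1 / κ := by
    have h4 : Real.exp (-(γ - T) ^ 2 / DD T ^ 2) ≤ Real.exp (-κ) := by
      apply Real.exp_le_exp.2
      rw [neg_div]; linarith
    have h5 : Real.exp (-κ) ≤ 1 / κ := by
      rw [Real.exp_neg, ← one_div]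
      apply one_div_le_one_div_of_le hκ0
      have := Real.add_one_le_exp κ
      linarith
    linarith
  have h4 : 1 / (Real.sqrt Real.pi * DD T) ≤ 2 / DD γ := by
    rw [div_le_div_iff₀ (by positivity) hD]
    have h5 : DD γ ≤ 2 * DD T := by
      rw [div_le_iff₀ (by norm_num)] at hT3; linarith
    nlinarith
  unfold kw wt
  calc Real.exp (-(γ - T) ^ 2 / DD T ^ 2) / (Real.sqrt Real.pi * DD T)
      = (1 / (Real.sqrt Real.pi * DD T)) * Real.exp (-(γ - T) ^ 2 / DD T ^ 2) := by ring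
    _ ≤ (2 / DD γ) * (1 / κ) := mul_le_mul h4 h3 (Real.exp_pos _).le (by positivity)
    _ = 2 / (DD γ * κ) := by rw [div_mul_div_comm, mul_one]

/-- integral over an outer interval -/
lemma outer_int (hγ : 2 ≤ Real.log γ) (hγ0 : 0 < γ) (hc : 1 < c) (hc2 : c ≤ 2) {a b : ℝ}
    (hab : a ≤ b) (ha : γ / 2 ≤ a) (hb : b ≤ 2 * γ) (hlen : b - a ≤ γ)
    (h : b ≤ γ / c ∨ c * γ ≤ a) :
    ∫ T in a..b, kw γ T ≤ 2 / (((c - 1) / (2 * c)) ^ 2 * (γ / DD γ)) := by
  have h7 := one_lt_of_log hγ hγ0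
  have hc0 : 0 < c := by linarith
  have hD := DD_pos (T := γ) (by linarith)
  have hk0 : 0 < (c - 1) / (2 * c) := div_pos (by linarith) (by linarith)
  have h1 : ∫ T in a..b, kw γ T ≤
      ∫ T in a..b, 2 / (DD γ * (((c - 1) / (2 * c)) ^ 2 * (γ / DD γ) ^ 2)) := by
    apply intervalIntegral.integral_mono_on hab (kw_int γ (by linarith) (by linarith))
      (by apply Continuous.intervalIntegrable; fun_prop)
    intro T hT
    apply outer_pt hγ hγ0 hc hc2 (by linarith [hT.1]) (by linarith [hT.2])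
    rcases h with h | h
    · left; linarith [hT.2]
    · right; linarith [hT.1]
  refine h1.trans ?_
  rw [intervalIntegral.integral_const, smul_eq_mul]
  calc (b - a) * (2 / (DD γ * (((c - 1) / (2 * c)) ^ 2 * (γ / DD γ) ^ 2)))
      ≤ γ * (2 / (DD γ * (((c - 1) / (2 * c)) ^ 2 * (γ / DD γ) ^ 2))) := by
        apply mul_le_mul_of_nonneg_right hlen (by positivity)
    _ = 2 / (((c - 1) / (2 * c)) ^ 2 * (γ / DD γ)) := by
        field_simp

end

lemma ratio_tendsto : Tendsto (fun γ : ℝ => γ / DD γ) atTop atTop := by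
  have h1 : Tendsto (fun γ : ℝ => Real.log γ ^ (2 / 3 : ℝ)) atTop atTop :=
    (tendsto_rpow_atTop (by norm_num)).comp Real.tendsto_log_atTop
  refine h1.congr' ?_
  filter_upwards [eventually_gt_atTop 1] with γ hγ
  unfold DD
  have : 0 < Real.log γ ^ (2 / 3 : ℝ) := Real.rpow_pos_of_pos (Real.log_pos hγ) _
  have : γ ≠ 0 := by linarith
  field_simp

/-- module KER -/
theorem ker : Ker4Statement := by
  intro δ hδ hδ2
  set c : ℝ := 1 + δ / 3 with hc
  have hc1 : 1 < c := by rw [hc]; linarith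
  have hc2 : c ≤ 2 := by rw [hc]; linarith
  have hpi : 0 < Real.sqrt Real.pi := Real.sqrt_pos.2 Real.pi_pos
  have hk0 : 0 < (c - 1) / (2 * c) := div_pos (by linarith) (by linarith)
  have hz := ratio_tendsto
  have hE1 : ∀ᶠ γ : ℝ in atTop, 2 ≤ Real.log γ := Real.tendsto_log_atTop.eventually_ge_atTop 2
  have hE2 : ∀ᶠ γ : ℝ in atTop, 1 - δ ≤ (c ^ 2 * Real.sqrt Real.pi)⁻¹ *
      (∫ v in (-((c - 1) * (γ / DD γ)))..((c - 1) * (γ / DD γ)), Real.exp (-v ^ 2)) := by
    have h1 : Tendsto (fun γ : ℝ => (c - 1) * (γ / DD γ)) atTop atTop :=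
      hz.const_mul_atTop (by linarith)
    have h2 : Tendsto (fun γ : ℝ => -((c - 1) * (γ / DD γ))) atTop atBot :=
      tendsto_neg_atTop_atBot.comp h1
    have h3 := intervalIntegral_tendsto_integral gauss_int h2 h1
    have h4 := h3.const_mul (c ^ 2 * Real.sqrt Real.pi)⁻¹
    rw [gauss_total] at h4
    have h5 : (c ^ 2 * Real.sqrt Real.pi)⁻¹ * Real.sqrt Real.pi = 1 / c ^ 2 := by
      have : 0 < c := by linarith
      field_simp
    rw [h5] at h4
    apply h4.eventually_const_le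
    rw [lt_div_iff₀ (by positivity), hc]
    nlinarith [mul_pos hδ hδ, mul_pos (mul_pos hδ hδ) hδ]
  have hE3 : ∀ᶠ γ : ℝ in atTop, 2 / (((c - 1) / (2 * c)) ^ 2 * (γ / DD γ)) ≤ δ / 20 := by
    have h1 : Tendsto (fun γ : ℝ => ((c - 1) / (2 * c)) ^ 2 * (γ / DD γ)) atTop atTop :=
      hz.const_mul_atTop (by positivity)
    have h2 := h1.const_div_atTop 2
    exact h2.eventually_le_const (by positivity)
  obtain ⟨X1, hX1⟩ := (hE1.and (hE2.and hE3)).exists_forall_of_atTop
  refine ⟨max X1 8, by linarith [le_max_right X1 8], ?_⟩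
  intro γ hγ
  obtain ⟨hlog, hlow, hout⟩ := hX1 γ (le_trans (le_max_left _ _) hγ)
  have hγ8 : 8 ≤ γ := le_trans (le_max_right _ _) hγ
  have hγ0 : 0 < γ := by linarith
  have hc0 : 0 < c := by linarith
  have hδ1 : 0 < 1 + δ := by linarith
  have i1 : γ / (1 + δ) ≤ γ / c := by
    apply div_le_div_of_nonneg_left hγ0.le hc0; rw [hc]; linarith
  have i2 : γ / c ≤ c * γ := by
    have e1 : γ / c ≤ γ := by rw [div_le_iff₀ hc0]; nlinarith
    nlinarith
  have i3 : c * γ ≤ (1 + δ) * γ := by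
    apply mul_le_mul_of_nonneg_right _ hγ0.le; rw [hc]; linarith
  have i0 : γ / 2 ≤ γ / (1 + δ) := by
    apply div_le_div_of_nonneg_left hγ0.le hδ1; linarith
  have i4 : c * γ ≤ 2 * γ := mul_le_mul_of_nonneg_right hc2 hγ0.le
  have j0 : 1 < γ / 2 := by linarith
  have i5 : γ ≤ c * γ := by nlinarith
  have i6 : γ / c ≤ γ := by rw [div_le_iff₀ hc0]; nlinarith
  have hnn : ∀ a b : ℝ, 1 < a → ∀ᵐ T ∂(volume.restrict (Set.Ioc a b)), 0 ≤ kw γ T := by
    intro a b ha
    filter_upwards [ae_restrict_mem measurableSet_Ioc] with T hT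
    exact kw_nonneg (by linarith [hT.1])
  refine ⟨?_, ?_, ?_⟩
  · refine hlow.trans ((mid_lower hlog hγ0 hc1 hc2).trans ?_)
    apply intervalIntegral.integral_mono_interval i1 i2 i3
    · exact hnn _ _ (by linarith)
    · exact kw_int γ (by linarith) (by linarith)
  · have h1 : ∫ T in (γ / 2)..(γ / c), kw γ T ≤ δ / 20 :=
      (outer_int hlog hγ0 hc1 hc2 (by linarith) le_rfl (by linarith) (by linarith)
        (Or.inl le_rfl)).trans hout
    have h2 : ∫ T in (c * γ)..(2 * γ), kw γ T ≤ δ / 20 :=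
      (outer_int hlog hγ0 hc1 hc2 (by linarith) (by linarith) le_rfl (by linarith)
        (Or.inr le_rfl)).trans hout
    have h3 := mid_upper hlog hγ0 hc1 hc2
    have h4 : (∫ T in (γ / 2)..(γ / c), kw γ T) + (∫ T in (γ / c)..(c * γ), kw γ T) =
        ∫ T in (γ / 2)..(c * γ), kw γ T :=
      intervalIntegral.integral_add_adjacent_intervals
        (kw_int γ j0 (by linarith)) (kw_int γ (by linarith) (by linarith))
    have h5 : (∫ T in (γ / 2)..(c * γ), kw γ T) + (∫ T in (c * γ)..(2 * γ), kw γ T) =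
        ∫ T in (γ / 2)..(2 * γ), kw γ T :=
      intervalIntegral.integral_add_adjacent_intervals
        (kw_int γ j0 (by linarith)) (kw_int γ (by linarith) (by linarith))
    have h6 : c ^ 2 ≤ 1 + 5 / 6 * δ := by rw [hc]; nlinarith
    linarith
  · have h1 : ∫ T in (γ / 2)..(γ / (1 + δ)), kw γ T ≤ δ / 20 :=
      (outer_int hlog hγ0 hc1 hc2 i0 le_rfl (by linarith) (by linarith)
        (Or.inl i1)).trans hout
    linarith

end Pool.Agent.Lib.MP_6bc78b_nt.MS.P4.H05
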